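import Mathlib

/-!
# The equitable `U_q(sl_2)`-action on a `q`-Racah Leonard pair

`K` is a field, `V` a vector space of dimension `d + 1`, `a`, `b`, `c`, `q` are nonzero scalars with
`q ^ 4 ≠ 1`, and `A`, `A*` is a Leonard pair on `V` with the `q`-Racah parameter array of the problem.  We
prove that `V` carries an irreducible module structure of `U_q(sl_2)`, in the equitable presentation,
under which
`A = a X + a⁻¹ Y + (c / b) [X, Y] / (q - q⁻¹)`, `A* = b Z + b⁻¹ X + (a / c) [Z, X] / (q - q⁻¹)`,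
`A^ε = c Y + c⁻¹ Z + (b / a) [Y, Z] / (q - q⁻¹)`.

The split basis (ii) of the Leonard pair is an eigenbasis of `X`, with eigenvalues `q ^ (d - 2 i)`, `Y` is lower
bidiagonal and `Z` is upper bidiagonal in it.
-/

set_option autoImplicit false

namespace Pool.Agent.Results.MP_dc3d2a_al.EquitableAction

variable {K : Type*} [Field K] {V : Type*} [AddCommGroup V] [Module K V]

/-- Irreducible tridiagonal matrices. -/
def IrredTridiagonal {n : ℕ} (M : Matrix (Fin n) (Fin n) K) : Prop :=
  (∀ i j : Fin n, (i : ℕ) + 1 < j ∨ (j : ℕ) + 1 < i → M i j = 0) ∧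
  ∀ i j : Fin n, (i : ℕ) + 1 = j ∨ (j : ℕ) + 1 = i → M i j ≠ 0

/-- Leonard pairs on a space of dimension `d + 1`. -/
def LeonardPair (d : ℕ) (A B : Module.End K V) : Prop :=
  (∃ v : Module.Basis (Fin (d + 1)) K V, (LinearMap.toMatrix v v A).IsDiag ∧
    IrredTridiagonal (LinearMap.toMatrix v v B)) ∧
  ∃ v : Module.Basis (Fin (d + 1)) K V, (LinearMap.toMatrix v v B).IsDiag ∧
    IrredTridiagonal (LinearMap.toMatrix v v A)

/-- The lower bidiagonal matrix of order `d + 1` with diagonal `x 0, …, x d` and subdiagonal entries `1`. -/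
def lower (d : ℕ) (x : ℕ → K) : Matrix (Fin (d + 1)) (Fin (d + 1)) K := fun i j =>
  if i = j then x i else if (i : ℕ) = j + 1 then 1 else 0

/-- The upper bidiagonal matrix of order `d + 1` with diagonal `x 0, …, x d` and superdiagonal
`y 1, …, y d`. -/
def upper (d : ℕ) (x y : ℕ → K) : Matrix (Fin (d + 1)) (Fin (d + 1)) K := fun i j =>
  if i = j then x i else if (j : ℕ) = i + 1 then y j else 0

/-- The pair `A`, `B` has the parameter array `(θ i, θ' i (0 ≤ i ≤ d); φ i, ϕ i (1 ≤ i ≤ d))`. -/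
def HasParameterArray (d : ℕ) (A B : Module.End K V) (θ θ' φ ϕ : ℕ → K) : Prop :=
  (∃ v : Module.Basis (Fin (d + 1)) K V, LinearMap.toMatrix v v A = lower d θ ∧
    LinearMap.toMatrix v v B = upper d θ' φ) ∧
  ∃ v : Module.Basis (Fin (d + 1)) K V, LinearMap.toMatrix v v A = lower d (fun i => θ (d - i)) ∧
    LinearMap.toMatrix v v B = upper d θ' ϕ

/-- `λ_i(x) = x q ^ (2 i - d) + x⁻¹ q ^ (d - 2 i)` -/
def lam (q : K) (d : ℕ) (x : K) (i : ℕ) : K :=
  x * q ^ (2 * (i : ℤ) - d) + x⁻¹ * q ^ ((d : ℤ) - 2 * i)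

/-- `u_i = (q ^ (- i) - q ^ i) (q ^ (d - i + 1) - q ^ (i - d - 1))` -/
def u (q : K) (d i : ℕ) : K :=
  (q ^ (-(i : ℤ)) - q ^ (i : ℤ)) * (q ^ ((d : ℤ) - i + 1) - q ^ ((i : ℤ) - d - 1))

/-- `r_i(x) = q ^ (- i) - x q ^ (i - d - 1)` -/
def r (q : K) (d : ℕ) (x : K) (i : ℕ) : K :=
  q ^ (-(i : ℤ)) - x * q ^ ((i : ℤ) - d - 1)

/-- `φ_i = q ^ (d + 1) / (a b) u_i r_i(a b c) r_i(a b / c)` -/
def phi (a b c q : K) (d i : ℕ) : K :=
  q ^ (d + 1) / (a * b) * u q d i * r q d (a * b * c) i * r q d (a * b / c) i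

/-- `ϕ_i = a q ^ (d + 1) / b u_i r_i(b c / a) r_i(b / (a c))` -/
def phi' (a b c q : K) (d i : ℕ) : K :=
  a * q ^ (d + 1) / b * u q d i * r q d (b * c / a) i * r q d (b / (a * c)) i

/-- `s_x = x + x⁻¹` -/
def s (x : K) : K := x + x⁻¹

/-- `t = q ^ (d + 1) + q ^ (- d - 1)` -/
def t (q : K) (d : ℕ) : K := q ^ ((d : ℤ) + 1) + q ^ (-(d : ℤ) - 1)

/-- The map `A^ε`, defined by
`(q ^ 2 - q ^ (- 2)) A^ε = q⁻¹ A A* - q A* A + (q - q⁻¹) (s_a s_b + s_c t) I`. -/
noncomputable def third (a b c q : K) (d : ℕ) (A B : Module.End K V) : Module.End K V :=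
  (q ^ 2 - q⁻¹ ^ 2)⁻¹ • (q⁻¹ • (A * B) - q • (B * A) +
    ((q - q⁻¹) * (s a * s b + s c * t q d)) • (1 : Module.End K V))

/-- The generators `X`, `X⁻¹`, `Y`, `Z` of `U_q(sl_2)`. -/
inductive Gen : Type
  | X | Xinv | Y | Z

open FreeAlgebra in
/-- The equitable relations. -/
inductive Rel (K : Type*) [Field K] (q : K) : FreeAlgebra K Gen → FreeAlgebra K Gen → Prop
  | inv₁ : Rel K q (ι K Gen.X * ι K Gen.Xinv) 1
  | inv₂ : Rel K q (ι K Gen.Xinv * ι K Gen.X) 1
  | XY : Rel K q (q • (ι K Gen.X * ι K Gen.Y) - q⁻¹ • (ι K Gen.Y * ι K Gen.X)) ((q - q⁻¹) • 1)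
  | YZ : Rel K q (q • (ι K Gen.Y * ι K Gen.Z) - q⁻¹ • (ι K Gen.Z * ι K Gen.Y)) ((q - q⁻¹) • 1)
  | ZX : Rel K q (q • (ι K Gen.Z * ι K Gen.X) - q⁻¹ • (ι K Gen.X * ι K Gen.Z)) ((q - q⁻¹) • 1)

/-- `U_q(sl_2)` in the equitable presentation. -/
abbrev Uq (K : Type*) [Field K] (q : K) : Type _ := RingQuot (Rel K q)

/-- The generators of `U_q(sl_2)`. -/
def gen (K : Type*) [Field K] (q : K) (g : Gen) : Uq K q := RingQuot.mkAlgHom K (Rel K q) (FreeAlgebra.ι K g)

/-- The module structure given by `ρ` is irreducible: `V ≠ 0` and the only submodules are `0` and `V`. -/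
def IsIrreducible {q : K} (ρ : Uq K q →ₐ[K] Module.End K V) : Prop :=
  Nontrivial V ∧ ∀ W : Submodule K V, (∀ x : Uq K q, ∀ w ∈ W, ρ x w ∈ W) → W = ⊥ ∨ W = ⊤

/-! ### Leonard pairs act irreducibly -/

theorem eigen_zero {n : ℕ} {M : Matrix (Fin n) (Fin n) K} (hM : IrredTridiagonal M) {x : Fin n → K}
    {μ : K} (hx : M.mulVec x = μ • x) (h0 : ∀ i : Fin n, (i : ℕ) = 0 → x i = 0) : x = 0 := by
  have key : ∀ k : ℕ, ∀ i : Fin n, (i : ℕ) ≤ k → x i = 0 := by
    intro k
    induction k with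
    | zero => intro i hi; exact h0 i (by omega)
    | succ k ih =>
      intro i hi
      rcases Nat.lt_or_ge (i : ℕ) (k + 1) with h | h
      · exact ih i (by omega)
      · have hik : (i : ℕ) = k + 1 := by omega
        have hk : k < n := by omega
        have h1 := congrFun hx ⟨k, hk⟩
        rw [Matrix.mulVec, dotProduct, Finset.sum_eq_single i] at h1
        · rw [Pi.smul_apply, ih ⟨k, hk⟩ le_rfl, smul_zero] at h1
          exact (mul_eq_zero.1 h1).resolve_left (hM.2 _ _ (Or.inl hik.symm))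
        · intro j _ hj
          rcases Nat.lt_or_ge (j : ℕ) (k + 1) with h2 | h2
          · rw [ih j (by omega), mul_zero]
          · have : (j : ℕ) ≠ i := fun h => hj (Fin.ext h)
            rw [hM.1 _ _ (Or.inl (by show k + 1 < (j : ℕ); omega)), zero_mul]
        · intro h; exact absurd (Finset.mem_univ i) h
  funext i
  exact key i i le_rfl

theorem eigen_zero' {d : ℕ} {A : Module.End K V} (v : Module.Basis (Fin (d + 1)) K V)
    (hM : IrredTridiagonal (LinearMap.toMatrix v v A)) {x : V} {μ : K} (hx : A x = μ • x)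
    (h0 : v.repr x 0 = 0) : x = 0 := by
  have h1 : (LinearMap.toMatrix v v A).mulVec (v.repr x) = μ • (v.repr x : Fin (d + 1) → K) := by
    rw [LinearMap.toMatrix_mulVec_repr, hx, map_smul]
    rfl
  have h2 := eigen_zero hM h1 (fun i hi => by
    have : i = 0 := Fin.ext hi
    rw [this, h0])
  apply v.repr.injective
  rw [map_zero]
  exact DFunLike.coe_injective h2

theorem diag_apply {d : ℕ} {A : Module.End K V} (v : Module.Basis (Fin (d + 1)) K V)
    (hA : (LinearMap.toMatrix v v A).IsDiag) (i : Fin (d + 1)) :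
    A (v i) = LinearMap.toMatrix v v A i i • v i := by
  apply v.repr.injective
  ext j
  rw [map_smul, Finsupp.smul_apply, v.repr_self, Finsupp.single_apply, ← LinearMap.toMatrix_apply]
  split_ifs with h
  · rw [h, smul_eq_mul, mul_one]
  · rw [smul_zero]
    exact hA (fun h' => h h'.symm)

/-- The eigenvalues are distinct. -/
theorem eigen_distinct {d : ℕ} {A : Module.End K V} (v w : Module.Basis (Fin (d + 1)) K V)
    (hv : (LinearMap.toMatrix v v A).IsDiag) (hw : IrredTridiagonal (LinearMap.toMatrix w w A)) :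
    Function.Injective fun i => LinearMap.toMatrix v v A i i := by
  intro i j hij
  by_contra hne
  have hi := diag_apply v hv i
  have hj := diag_apply v hv j
  have hij' : LinearMap.toMatrix v v A i i = LinearMap.toMatrix v v A j j := hij
  set x : V := w.repr (v j) 0 • v i - w.repr (v i) 0 • v j with hx
  have h1 : A x = LinearMap.toMatrix v v A i i • x := by
    rw [hx, map_sub, map_smul, map_smul, hi, hj, ← hij', smul_sub, smul_comm, smul_comm (w.repr (v i) 0)]
  have h2 : w.repr x 0 = 0 := by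
    rw [hx, map_sub, map_smul, map_smul, Finsupp.sub_apply, Finsupp.smul_apply, Finsupp.smul_apply,
      smul_eq_mul, smul_eq_mul, mul_comm, sub_self]
  have h3 := eigen_zero' w hw h1 h2
  have h4 : v.repr x i = 0 := by rw [h3, map_zero]; rfl
  rw [hx, map_sub, map_smul, map_smul, Finsupp.sub_apply, Finsupp.smul_apply, Finsupp.smul_apply,
    v.repr_self, v.repr_self, Finsupp.single_eq_same, Finsupp.single_eq_of_ne hne,
    smul_zero, sub_zero, smul_eq_mul, mul_one] at h4
  exact v.ne_zero j (eigen_zero' w hw hj h4)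

/-- A subspace invariant under a diagonal map with distinct eigenvalues contains the components of its
elements. -/
theorem component_mem {d : ℕ} {A : Module.End K V} (v : Module.Basis (Fin (d + 1)) K V)
    (hv : (LinearMap.toMatrix v v A).IsDiag)
    (hinj : Function.Injective fun i => LinearMap.toMatrix v v A i i) {W : Submodule K V}
    (hW : ∀ w ∈ W, A w ∈ W) {w : V} (hw : w ∈ W) {i : Fin (d + 1)} (hi : v.repr w i ≠ 0) :
    v i ∈ W := by
  classical
  set α : Fin (d + 1) → K := fun i => LinearMap.toMatrix v v A i i with hα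
  set p : Polynomial K := ∏ j ∈ Finset.univ.erase i, (Polynomial.X - Polynomial.C (α j)) with hp
  have hinv : ∀ (f : Polynomial K) (x : V), x ∈ W → Polynomial.aeval A f x ∈ W := by
    intro f x hx
    induction f using Polynomial.induction_on' with
    | add f g hf hg => rw [map_add]; exact W.add_mem hf hg
    | monomial n c =>
      rw [Polynomial.aeval_monomial]
      show (algebraMap K (Module.End K V) c) ((A ^ n) x) ∈ W
      rw [Module.algebraMap_end_apply]
      refine W.smul_mem _ ?_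
      induction n with
      | zero => exact hx
      | succ n ih => rw [pow_succ']; exact hW _ ih
  have hpv : ∀ k, Polynomial.aeval A p (v k) = p.eval (α k) • v k := by
    intro k
    refine Module.End.aeval_apply_of_hasEigenvector ⟨?_, v.ne_zero k⟩
    rw [Module.End.mem_eigenspace_iff]
    exact diag_apply v hv k
  have h1 : Polynomial.aeval A p w = (v.repr w i * p.eval (α i)) • v i := by
    conv_lhs => rw [← v.sum_repr w]
    rw [map_sum, Finset.sum_eq_single i]
    · rw [map_smul, hpv, smul_smul]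
    · intro k _ hk
      rw [map_smul, hpv]
      have : p.eval (α k) = 0 := by
        rw [hp, Polynomial.eval_prod]
        refine Finset.prod_eq_zero (Finset.mem_erase.2 ⟨hk, Finset.mem_univ k⟩) ?_
        simp
      rw [this, zero_smul, smul_zero]
    · intro h; exact absurd (Finset.mem_univ i) h
  have h2 : p.eval (α i) ≠ 0 := by
    rw [hp, Polynomial.eval_prod, Finset.prod_ne_zero_iff]
    intro j hj
    rw [Polynomial.eval_sub, Polynomial.eval_X, Polynomial.eval_C, sub_ne_zero]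
    intro h
    exact (Finset.mem_erase.1 hj).1 (hinj h).symm
  have h3 := hinv p w hw
  rw [h1] at h3
  exact (W.smul_mem_iff (mul_ne_zero hi h2)).1 h3

/-- A Leonard pair has no proper invariant subspaces. -/
theorem irreducible {d : ℕ} {A B : Module.End K V} (h : LeonardPair d A B) (W : Submodule K V)
    (hA : ∀ w ∈ W, A w ∈ W) (hB : ∀ w ∈ W, B w ∈ W) : W = ⊥ ∨ W = ⊤ := by
  obtain ⟨⟨v, hv, hvB⟩, ⟨w, -, hwA⟩⟩ := h
  have hinj := eigen_distinct v w hv hwA
  rcases eq_or_ne W ⊥ with h0 | h0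
  · exact Or.inl h0
  right
  obtain ⟨x, hx, hx0⟩ := (Submodule.ne_bot_iff W).1 h0
  obtain ⟨i, hi⟩ : ∃ i, v.repr x i ≠ 0 := by
    by_contra hcon
    push Not at hcon
    apply hx0
    apply v.repr.injective
    ext j
    rw [hcon j, map_zero]
    rfl
  have hvi : v i ∈ W := component_mem v hv hinj hA hx hi
  have hstep : ∀ i j : Fin (d + 1), (i : ℕ) + 1 = j ∨ (j : ℕ) + 1 = i → v j ∈ W → v i ∈ W := by
    intro i j hij hj
    refine component_mem v hv hinj hA (hB _ hj) (i := i) ?_
    rw [← LinearMap.toMatrix_apply]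
    exact hvB.2 i j hij
  have hup : ∀ k : ℕ, ∀ j : Fin (d + 1), (j : ℕ) = i + k → v j ∈ W := by
    intro k
    induction k with
    | zero =>
      intro j hj
      rwa [Fin.ext (show (j : ℕ) = i from hj)]
    | succ k ih =>
      intro j hj
      exact hstep j ⟨i + k, by omega⟩ (Or.inr (by show (i : ℕ) + k + 1 = j; omega)) (ih _ rfl)
  have hdown : ∀ k : ℕ, ∀ j : Fin (d + 1), (j : ℕ) + k = i → v j ∈ W := by
    intro k
    induction k with
    | zero =>
      intro j hj
      rwa [Fin.ext (show (j : ℕ) = i from hj)]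
    | succ k ih =>
      intro j hj
      exact hstep j ⟨j + 1, by omega⟩ (Or.inl rfl) (ih _ (by show (j : ℕ) + 1 + k = i; omega))
  rw [eq_top_iff, ← v.span_eq, Submodule.span_le]
  rintro _ ⟨j, rfl⟩
  rcases le_total (i : ℕ) j with h1 | h1
  · exact hup (j - i) j (by omega)
  · exact hdown (i - j) j (by omega)

/-! ### The split basis as a sequence -/

section act

variable {d : ℕ} (v : Module.Basis (Fin (d + 1)) K V)

/-- the basis, continued by zero -/
noncomputable def sq (i : ℕ) : V := if h : i < d + 1 then v ⟨i, h⟩ else 0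

theorem sq_fin (i : Fin (d + 1)) : sq v i = v i := by
  unfold sq
  rw [dif_pos i.isLt]

theorem sq_zero {i : ℕ} (h : d < i) : sq v i = 0 := by
  unfold sq
  rw [dif_neg (by omega)]

/-- two maps with the same values on the sequence are equal -/
theorem ext_sq {f g : Module.End K V} (h : ∀ i : ℕ, f (sq v i) = g (sq v i)) : f = g := by
  apply v.ext
  intro i
  rw [← sq_fin]
  exact h i

theorem lower_apply {A : Module.End K V} {x : ℕ → K} (h : LinearMap.toMatrix v v A = lower d x)
    (i : ℕ) : A (sq v i) = x i • sq v i + sq v (i + 1) := by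
  rcases Nat.lt_or_ge d i with hi | hi
  · rw [sq_zero v hi, sq_zero v (by omega), map_zero, smul_zero, add_zero]
  have e : sq v i = v ⟨i, by omega⟩ := sq_fin v ⟨i, by omega⟩
  rw [e]
  apply v.repr.injective
  ext j
  rw [← LinearMap.toMatrix_apply, h, map_add, map_smul, Finsupp.add_apply, Finsupp.smul_apply,
    v.repr_self, Finsupp.single_apply]
  unfold lower
  rcases Nat.lt_or_ge d (i + 1) with h1 | h1
  · rw [sq_zero v h1, map_zero, Finsupp.zero_apply, add_zero]
    by_cases h2 : j = ⟨i, by omega⟩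
    · rw [if_pos h2, if_pos h2.symm, h2, smul_eq_mul, mul_one]
    · rw [if_neg h2, if_neg (Ne.symm h2), smul_zero, if_neg]
      have := j.isLt
      simp only
      omega
  · have e1 : sq v (i + 1) = v ⟨i + 1, by omega⟩ := sq_fin v ⟨i + 1, by omega⟩
    rw [e1, v.repr_self, Finsupp.single_apply]
    by_cases h2 : j = ⟨i, by omega⟩
    · rw [if_pos h2, if_pos h2.symm, h2, smul_eq_mul, mul_one, if_neg, add_zero]
      intro h3
      have := congrArg Fin.val h3
      simp at this
    · rw [if_neg h2, if_neg (Ne.symm h2), smul_zero, zero_add]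
      refine if_congr ?_ rfl rfl
      rw [Fin.ext_iff]
      exact eq_comm

theorem upper_apply {B : Module.End K V} {x y : ℕ → K} (h : LinearMap.toMatrix v v B = upper d x y)
    (hy0 : y 0 = 0) (hy : y (d + 1) = 0) (i : ℕ) :
    B (sq v i) = x i • sq v i + y i • sq v (i - 1) := by
  rcases Nat.lt_or_ge d i with hi | hi
  · rw [sq_zero v hi, map_zero, smul_zero, zero_add]
    rcases Nat.lt_or_ge d (i - 1) with hi' | hi'
    · rw [sq_zero v hi', smul_zero]
    · have : i = d + 1 := by omega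
      rw [this, hy, zero_smul]
  have e : sq v i = v ⟨i, by omega⟩ := sq_fin v ⟨i, by omega⟩
  have e1 : sq v (i - 1) = v ⟨i - 1, by omega⟩ := sq_fin v ⟨i - 1, by omega⟩
  rw [e, e1]
  apply v.repr.injective
  ext j
  rw [← LinearMap.toMatrix_apply, h, map_add, map_smul, map_smul, Finsupp.add_apply,
    Finsupp.smul_apply, Finsupp.smul_apply, v.repr_self, v.repr_self, Finsupp.single_apply,
    Finsupp.single_apply]
  unfold upper
  by_cases h2 : j = ⟨i, by omega⟩
  · rw [if_pos h2, if_pos h2.symm, h2, smul_eq_mul, mul_one]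
    rcases Nat.eq_zero_or_pos i with h0 | h0
    · subst h0
      rw [hy0, zero_smul, add_zero]
    · rw [if_neg, smul_zero, add_zero]
      intro h3
      have := congrArg Fin.val h3
      simp only at this
      omega
  · rw [if_neg h2, if_neg (Ne.symm h2), smul_zero, zero_add]
    rcases Nat.eq_zero_or_pos i with h0 | h0
    · subst h0
      rw [hy0, zero_smul, if_neg]
      simp
    · by_cases h3 : i = (j : ℕ) + 1
      · rw [if_pos h3, if_pos (Fin.ext (by simp only; omega)), smul_eq_mul, mul_one]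
      · rw [if_neg h3, if_neg, smul_zero]
        intro h4
        have := congrArg Fin.val h4
        simp only at this
        omega

variable (a b c q : K)

/-- the scalar `a⁻¹ - (c / b) q ^ (d - 2 i + 1)` -/
def gg (d i : ℕ) : K := a⁻¹ - c / b * q ^ ((d : ℤ) - 2 * i + 1)

/-- the scalar `(1 - q ^ (2 i)) (1 - q ^ (2 i - 2 d - 2))` -/
def pp (d i : ℕ) : K := (1 - q ^ (2 * (i : ℤ))) * (1 - q ^ (2 * (i : ℤ) - 2 * d - 2))

/-- `X` -/
noncomputable def mX : Module.End K V := v.constr K fun i => q ^ ((d : ℤ) - 2 * (i : ℕ)) • v i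
/-- `X⁻¹` -/
noncomputable def mXi : Module.End K V := v.constr K fun i => q ^ (2 * ((i : ℕ) : ℤ) - d) • v i
/-- `Y` -/
noncomputable def mY : Module.End K V := v.constr K fun i =>
  q ^ (2 * ((i : ℕ) : ℤ) - d) • v i + (gg a b c q d (i + 1))⁻¹ • sq v (i + 1)
/-- `Z` -/
noncomputable def mZ : Module.End K V := v.constr K fun i =>
  q ^ (2 * ((i : ℕ) : ℤ) - d) • v i + (pp q d i * gg a b c q d i) • sq v (i - 1)

theorem constr_sq (f : ℕ → V) (hf : ∀ i, d < i → f i = 0) (i : ℕ) :
    v.constr K (fun i : Fin (d + 1) => f i) (sq v i) = f i := by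
  rcases Nat.lt_or_ge d i with hi | hi
  · rw [sq_zero v hi, map_zero, hf i hi]
  · have e : sq v i = v ⟨i, by omega⟩ := sq_fin v ⟨i, by omega⟩
    rw [e, Module.Basis.constr_basis]

theorem mX_sq (i : ℕ) : mX v q (sq v i) = q ^ ((d : ℤ) - 2 * i) • sq v i := by
  have := constr_sq v (fun i => q ^ ((d : ℤ) - 2 * (i : ℕ)) • sq v i) (fun i hi => by
    rw [sq_zero v hi, smul_zero]) i
  simpa only [mX, sq_fin] using this

theorem mXi_sq (i : ℕ) : mXi v q (sq v i) = q ^ (2 * (i : ℤ) - d) • sq v i := by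
  have := constr_sq v (fun i => q ^ (2 * (i : ℤ) - d) • sq v i) (fun i hi => by
    rw [sq_zero v hi, smul_zero]) i
  simpa only [mXi, sq_fin] using this

theorem mY_sq (i : ℕ) : mY v a b c q (sq v i) =
    q ^ (2 * (i : ℤ) - d) • sq v i + (gg a b c q d (i + 1))⁻¹ • sq v (i + 1) := by
  have := constr_sq v (fun i => q ^ (2 * (i : ℤ) - d) • sq v i +
    (gg a b c q d (i + 1))⁻¹ • sq v (i + 1)) (fun i hi => by
      rw [sq_zero v hi, sq_zero v (by omega), smul_zero, smul_zero, add_zero]) i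
  simpa only [mY, sq_fin] using this

theorem pp_end : pp q d (d + 1) = 0 := by
  unfold pp
  have : 2 * ((d + 1 : ℕ) : ℤ) - 2 * d - 2 = 0 := by push_cast; ring
  rw [this, zpow_zero, sub_self, mul_zero]

theorem pp_zero : pp q d 0 = 0 := by
  unfold pp
  simp

theorem mZ_sq (i : ℕ) : mZ v a b c q (sq v i) =
    q ^ (2 * (i : ℤ) - d) • sq v i + (pp q d i * gg a b c q d i) • sq v (i - 1) := by
  have := constr_sq v (fun i => q ^ (2 * (i : ℤ) - d) • sq v i +
    (pp q d i * gg a b c q d i) • sq v (i - 1)) (fun i hi => by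
      rw [sq_zero v hi, smul_zero, zero_add]
      rcases Nat.lt_or_ge d (i - 1) with hi' | hi'
      · rw [sq_zero v hi', smul_zero]
      · have : i = d + 1 := by omega
        rw [this, pp_end, zero_mul, zero_smul]) i
  simpa only [mZ, sq_fin] using this

theorem ext_le {f g : Module.End K V} (h : ∀ i : ℕ, i ≤ d → f (sq v i) = g (sq v i)) : f = g := by
  apply v.ext
  intro i
  rw [← sq_fin]
  exact h i (by omega)

variable {a b c q}

theorem zp (hq : q ≠ 0) (d i : ℕ) : q ^ ((d : ℤ) - 2 * (i : ℤ)) = q ^ d / (q ^ i) ^ 2 := by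
  rw [zpow_sub₀ hq, zpow_natCast, mul_comm (2 : ℤ), zpow_mul, zpow_natCast, zpow_ofNat]

theorem zp' (hq : q ≠ 0) (d i : ℕ) : q ^ (2 * (i : ℤ) - d) = (q ^ i) ^ 2 / q ^ d := by
  rw [zpow_sub₀ hq, zpow_natCast, mul_comm (2 : ℤ), zpow_mul, zpow_natCast, zpow_ofNat]

theorem gg_eq (hq : q ≠ 0) (d i : ℕ) : gg a b c q d i = a⁻¹ - c / b * (q ^ d / (q ^ i) ^ 2 * q) := by
  unfold gg
  rw [zpow_add₀ hq, zp hq, zpow_one]

theorem pp_eq (hq : q ≠ 0) (d i : ℕ) :
    pp q d i = (1 - (q ^ i) ^ 2) * (1 - (q ^ i) ^ 2 / (q ^ d) ^ 2 / q ^ 2) := by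
  unfold pp
  have e1 : q ^ (2 * (i : ℤ)) = (q ^ i) ^ 2 := by
    rw [mul_comm, zpow_mul, zpow_natCast, zpow_ofNat]
  have e2 : q ^ (2 * (i : ℤ) - 2 * d - 2) = (q ^ i) ^ 2 / (q ^ d) ^ 2 / q ^ 2 := by
    have e3 : q ^ (2 * (d : ℤ)) = (q ^ d) ^ 2 := by
      rw [mul_comm, zpow_mul, zpow_natCast, zpow_ofNat]
    rw [zpow_sub₀ hq, zpow_sub₀ hq, e1, e3, zpow_ofNat]
  rw [e1, e2]

theorem lam_eq (hq : q ≠ 0) (d : ℕ) (x : K) (i : ℕ) :
    lam q d x i = x * ((q ^ i) ^ 2 / q ^ d) + x⁻¹ * (q ^ d / (q ^ i) ^ 2) := by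
  unfold lam
  rw [zp hq, zp' hq]

theorem lam_rev (hq : q ≠ 0) {d i : ℕ} (hi : i ≤ d) (x : K) :
    lam q d x (d - i) = x * (q ^ d / (q ^ i) ^ 2) + x⁻¹ * ((q ^ i) ^ 2 / q ^ d) := by
  unfold lam
  have e1 : 2 * ((d - i : ℕ) : ℤ) - d = d - 2 * i := by
    rw [Nat.cast_sub hi]; ring
  have e2 : (d : ℤ) - 2 * ((d - i : ℕ) : ℤ) = 2 * i - d := by
    rw [Nat.cast_sub hi]; ring
  rw [e1, e2, zp hq, zp' hq]

theorem u_eq (hq : q ≠ 0) (d i : ℕ) :
    u q d i = ((q ^ i)⁻¹ - q ^ i) * (q ^ d / q ^ i * q - q ^ i / q ^ d / q) := by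
  unfold u
  rw [zpow_neg, zpow_natCast, zpow_add₀ hq, zpow_sub₀ hq, zpow_sub₀ hq, zpow_sub₀ hq, zpow_natCast,
    zpow_natCast, zpow_one]

theorem r_eq (hq : q ≠ 0) (d : ℕ) (x : K) (i : ℕ) :
    r q d x i = (q ^ i)⁻¹ - x * (q ^ i / q ^ d / q) := by
  unfold r
  rw [zpow_neg, zpow_natCast, zpow_sub₀ hq, zpow_sub₀ hq, zpow_natCast, zpow_natCast, zpow_one]

/-- the second split sequence in terms of the off-diagonal entries -/
theorem phi'_eq (ha : a ≠ 0) (hb : b ≠ 0) (hc : c ≠ 0) (hq : q ≠ 0) (d i : ℕ) :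
    phi' a b c q d i = pp q d i * gg a b c q d i * (b - a / c * (q ^ d / (q ^ i) ^ 2 * q)) := by
  unfold phi'
  rw [u_eq hq, r_eq hq, r_eq hq, pp_eq hq, gg_eq hq]
  have hQ : q ^ d ≠ 0 := pow_ne_zero _ hq
  have hT : q ^ i ≠ 0 := pow_ne_zero _ hq
  rw [pow_succ]
  generalize q ^ d = Q at *
  generalize q ^ i = T at *
  field_simp
  ring

/-- the hypothesis on the scalars -/
structure Hyp (a b c q : K) (d : ℕ) : Prop where
  ha : a ≠ 0
  hb : b ≠ 0
  hc : c ≠ 0
  hq : q ≠ 0
  hq4 : q ^ 4 ≠ 1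
  hg : ∀ i, 1 ≤ i → i ≤ d → gg a b c q d i ≠ 0

variable (H : Hyp a b c q d)

include H

theorem nm {i : ℕ} (hi : i ≤ d + 1) :
    (gg a b c q d i)⁻¹ * (pp q d i * gg a b c q d i) = pp q d i := by
  rcases Nat.eq_zero_or_pos i with h | h
  · rw [h, pp_zero]; simp
  rcases Nat.lt_or_ge d i with h1 | h1
  · have : i = d + 1 := by omega
    rw [this, pp_end]; simp
  have := H.hg i h h1
  field_simp

theorem n_smul (i : ℕ) (hi : 1 ≤ i) : ((gg a b c q d i)⁻¹ * gg a b c q d i) • sq v i = sq v i := by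
  rcases Nat.lt_or_ge d i with h1 | h1
  · rw [sq_zero v h1, smul_zero]
  · rw [inv_mul_cancel₀ (H.hg i hi h1), one_smul]

theorem q_sub : q - q⁻¹ ≠ 0 := by
  intro h
  have hq := H.hq
  field_simp at h
  apply H.hq4
  have : q ^ 2 = 1 := by linear_combination h
  calc q ^ 4 = (q ^ 2) ^ 2 := by ring
    _ = 1 := by rw [this]; ring

theorem q_add : q + q⁻¹ ≠ 0 := by
  intro h
  have hq := H.hq
  field_simp at h
  apply H.hq4
  have : q ^ 2 = -1 := by linear_combination h
  calc q ^ 4 = (q ^ 2) ^ 2 := by ring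
    _ = 1 := by rw [this]; ring

theorem rel_inv₁ : mX v q * mXi v q = 1 := by
  apply ext_le v
  intro i _
  have hq := H.hq
  rw [Module.End.mul_apply, mXi_sq, map_smul, mX_sq, smul_smul, zp hq, zp' hq, Module.End.one_apply]
  have hQ : q ^ d ≠ 0 := pow_ne_zero _ hq
  have hT : q ^ i ≠ 0 := pow_ne_zero _ hq
  have : (q ^ i) ^ 2 / q ^ d * (q ^ d / (q ^ i) ^ 2) = 1 := by field_simp
  rw [this, one_smul]

theorem rel_inv₂ : mXi v q * mX v q = 1 := by
  apply ext_le v
  intro i _
  have hq := H.hq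
  rw [Module.End.mul_apply, mX_sq, map_smul, mXi_sq, smul_smul, zp hq, zp' hq, Module.End.one_apply]
  have hQ : q ^ d ≠ 0 := pow_ne_zero _ hq
  have hT : q ^ i ≠ 0 := pow_ne_zero _ hq
  have : q ^ d / (q ^ i) ^ 2 * ((q ^ i) ^ 2 / q ^ d) = 1 := by field_simp
  rw [this, one_smul]

theorem rel_XY : q • (mX v q * mY v a b c q) - q⁻¹ • (mY v a b c q * mX v q) =
    (q - q⁻¹) • (1 : Module.End K V) := by
  apply ext_le v
  intro i _
  have hq := H.hq
  have hQ : q ^ d ≠ 0 := pow_ne_zero _ hq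
  have hT : q ^ i ≠ 0 := pow_ne_zero _ hq
  simp only [LinearMap.sub_apply, LinearMap.smul_apply, Module.End.mul_apply, Module.End.one_apply,
    mX_sq, mY_sq, map_add, map_smul, zp hq, zp' hq, pow_succ]
  generalize q ^ d = Q at *
  generalize q ^ i = T at *
  generalize (gg a b c q d (i + 1))⁻¹ = N
  match_scalars <;> field_simp <;> ring

theorem rel_ZX : q • (mZ v a b c q * mX v q) - q⁻¹ • (mX v q * mZ v a b c q) =
    (q - q⁻¹) • (1 : Module.End K V) := by
  apply ext_le v
  intro i _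
  have hq := H.hq
  have hQ : q ^ d ≠ 0 := pow_ne_zero _ hq
  rcases i with _ | i
  · simp only [LinearMap.sub_apply, LinearMap.smul_apply, Module.End.mul_apply, Module.End.one_apply,
      mX_sq, mZ_sq, map_add, map_smul, zp hq, zp' hq, pp_zero, zero_mul, zero_smul, add_zero]
    generalize q ^ d = Q at *
    match_scalars <;> field_simp
  · have hT : q ^ i ≠ 0 := pow_ne_zero _ hq
    simp only [LinearMap.sub_apply, LinearMap.smul_apply, Module.End.mul_apply, Module.End.one_apply,
      mX_sq, mZ_sq, map_add, map_smul, zp hq, zp' hq, pow_succ, Nat.add_sub_cancel]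
    generalize q ^ d = Q at *
    generalize q ^ i = T at *
    generalize pp q d (i + 1) * gg a b c q d (i + 1) = N
    match_scalars <;> field_simp <;> ring

theorem rel_YZ : q • (mY v a b c q * mZ v a b c q) - q⁻¹ • (mZ v a b c q * mY v a b c q) =
    (q - q⁻¹) • (1 : Module.End K V) := by
  apply ext_le v
  intro i hi
  have hq := H.hq
  have hQ : q ^ d ≠ 0 := pow_ne_zero _ hq
  have h1 := nm H (i := i + 1) (by omega)
  have h2 := nm H (i := i) (by omega)
  rcases i with _ | i
  · simp only [LinearMap.sub_apply, LinearMap.smul_apply, Module.End.mul_apply, Module.End.one_apply,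
      mY_sq, mZ_sq, map_add, map_smul, zp hq, zp' hq, pp_zero, zero_mul, zero_smul, add_zero, smul_add,
      smul_smul, h1, Nat.add_sub_cancel]
    rw [pp_eq hq]
    simp only [pow_succ]
    generalize q ^ d = Q at *
    match_scalars <;> field_simp <;> ring
  · have hT : q ^ i ≠ 0 := pow_ne_zero _ hq
    simp only [LinearMap.sub_apply, LinearMap.smul_apply, Module.End.mul_apply, Module.End.one_apply,
      mY_sq, mZ_sq, map_add, map_smul, zp hq, zp' hq, Nat.add_sub_cancel, smul_add, smul_smul]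
    simp only [mul_comm (pp q d (i + 1) * gg a b c q d (i + 1)) ((gg a b c q d (i + 1))⁻¹), h2, h1]
    rw [pp_eq hq d (i + 1), pp_eq hq d (i + 1 + 1)]
    simp only [pow_succ]
    generalize q ^ d = Q at *
    generalize q ^ i = T at *
    match_scalars <;> field_simp <;> ring

theorem id_A {A : Module.End K V}
    (hA : ∀ i, i ≤ d → A (sq v i) = lam q d a (d - i) • sq v i + sq v (i + 1)) :
    A = a • mX v q + a⁻¹ • mY v a b c q +
      (c / b) • ((q - q⁻¹)⁻¹ • (mX v q * mY v a b c q - mY v a b c q * mX v q)) := by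
  apply ext_le v
  intro i hi
  have ha := H.ha
  have hb := H.hb
  have hc := H.hc
  have hq := H.hq
  have hqs := q_sub H
  have hQ : q ^ d ≠ 0 := pow_ne_zero _ hq
  have hT : q ^ i ≠ 0 := pow_ne_zero _ hq
  rw [hA i hi, lam_rev hq hi]
  have hn := n_smul v H (i + 1) (by omega)
  have hgs : gg a b c q d (i + 1) = a⁻¹ - c / b * (q ^ d / (q ^ i) ^ 2 / q) := by
    rw [gg_eq hq d (i + 1)]
    congr 2
    rw [show q ^ (i + 1) = q ^ i * q from pow_succ q i]
    field_simp
  have hgoal : sq v (i + 1) = ((gg a b c q d (i + 1))⁻¹ *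
      (a⁻¹ - c / b * (q ^ d / (q ^ i) ^ 2 / q))) • sq v (i + 1) := by
    rw [← hgs]
    exact hn.symm
  conv_lhs => rw [hgoal]
  simp only [LinearMap.sub_apply, LinearMap.add_apply, LinearMap.smul_apply, Module.End.mul_apply,
    mX_sq, mY_sq, map_add, map_smul, zp hq, zp' hq, pow_succ]
  generalize q ^ d = Q at *
  generalize q ^ i = T at *
  generalize (gg a b c q d (i + 1))⁻¹ = N
  have hqs' : q ^ 2 - 1 ≠ 0 := by
    intro h
    apply hqs
    field_simp
    linear_combination h
  match_scalars <;> field_simp <;> ring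

theorem id_B {B : Module.End K V}
    (hB : ∀ i, i ≤ d → B (sq v i) = lam q d b i • sq v i + phi' a b c q d i • sq v (i - 1)) :
    B = b • mZ v a b c q + b⁻¹ • mX v q +
      (a / c) • ((q - q⁻¹)⁻¹ • (mZ v a b c q * mX v q - mX v q * mZ v a b c q)) := by
  apply ext_le v
  intro i hi
  have ha := H.ha
  have hb := H.hb
  have hc := H.hc
  have hq := H.hq
  have hqs := q_sub H
  have hQ : q ^ d ≠ 0 := pow_ne_zero _ hq
  have hT : q ^ i ≠ 0 := pow_ne_zero _ hq
  rw [hB i hi, lam_eq hq, phi'_eq ha hb hc hq]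
  have hqs' : q ^ 2 - 1 ≠ 0 := by
    intro h
    apply hqs
    field_simp
    linear_combination h
  rcases i with _ | i
  · simp only [LinearMap.sub_apply, LinearMap.add_apply, LinearMap.smul_apply, Module.End.mul_apply,
      mX_sq, mZ_sq, map_add, map_smul, zp hq, zp' hq, pp_zero, zero_mul, zero_smul, add_zero]
    generalize q ^ d = Q at *
    match_scalars <;> field_simp <;> ring
  · have hT : q ^ i ≠ 0 := pow_ne_zero _ hq
    simp only [LinearMap.sub_apply, LinearMap.add_apply, LinearMap.smul_apply, Module.End.mul_apply,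
      mX_sq, mZ_sq, map_add, map_smul, zp hq, zp' hq, Nat.add_sub_cancel]
    generalize pp q d (i + 1) * gg a b c q d (i + 1) = N
    simp only [pow_succ]
    generalize q ^ d = Q at *
    generalize q ^ i = T at *
    match_scalars <;> field_simp <;> ring

theorem id_E {A B : Module.End K V}
    (hA : ∀ i, i ≤ d → A (sq v i) = lam q d a (d - i) • sq v i + sq v (i + 1))
    (hB : ∀ i, B (sq v i) = lam q d b i • sq v i + phi' a b c q d i • sq v (i - 1)) :
    third a b c q d A B = c • mY v a b c q + c⁻¹ • mZ v a b c q +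
      (b / a) • ((q - q⁻¹)⁻¹ • (mY v a b c q * mZ v a b c q - mZ v a b c q * mY v a b c q)) := by
  have ha := H.ha
  have hb := H.hb
  have hc := H.hc
  have hq := H.hq
  have hqs := q_sub H
  have hqa := q_add H
  have hQ : q ^ d ≠ 0 := pow_ne_zero _ hq
  have hqs' : q ^ 2 - 1 ≠ 0 := by
    intro h
    apply hqs
    field_simp
    linear_combination h
  have hqa' : q ^ 2 + 1 ≠ 0 := by
    intro h
    apply hqa
    field_simp
    linear_combination h
  have hq2 : q ^ 2 - q⁻¹ ^ 2 ≠ 0 := by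
    have : q ^ 2 - q⁻¹ ^ 2 = (q - q⁻¹) * (q + q⁻¹) := by ring
    rw [this]
    exact mul_ne_zero hqs hqa
  have key : q⁻¹ • (A * B) - q • (B * A) +
      ((q - q⁻¹) * (s a * s b + s c * t q d)) • (1 : Module.End K V) =
      ((q - q⁻¹) * (q + q⁻¹)) • (c • mY v a b c q + c⁻¹ • mZ v a b c q +
      (b / a) • ((q - q⁻¹)⁻¹ • (mY v a b c q * mZ v a b c q - mZ v a b c q * mY v a b c q))) := by
    apply ext_le v
    intro i hi
    have hT : q ^ i ≠ 0 := pow_ne_zero _ hq
    have h1 := nm H (i := i + 1) (by omega)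
    have h2 := nm H (i := i) (by omega)
    have ht : t q d = q ^ d * q + (q ^ d)⁻¹ / q := by
      unfold t
      rw [zpow_add₀ hq, zpow_sub₀ hq, zpow_neg, zpow_natCast, zpow_one]
    have hAi := hA i hi
    have hBi := hB i
    have hBi1 := hB (i + 1)
    rw [Nat.add_sub_cancel] at hBi1
    have hn := n_smul v H (i + 1) (by omega)
    have hgs : gg a b c q d (i + 1) = a⁻¹ - c / b * (q ^ d / (q ^ i) ^ 2 / q) := by
      rw [gg_eq hq d (i + 1)]
      congr 2
      rw [show q ^ (i + 1) = q ^ i * q from pow_succ q i]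
      field_simp
    have hgoal : sq v (i + 1) = ((gg a b c q d (i + 1))⁻¹ *
        (a⁻¹ - c / b * (q ^ d / (q ^ i) ^ 2 / q))) • sq v (i + 1) := by
      rw [← hgs]
      exact hn.symm
    have hAB : A (B (sq v i)) - (q * q) • B (A (sq v i)) =
        phi' a b c q d i • A (sq v (i - 1)) +
        (lam q d b i * lam q d a (d - i) - (q * q) * (lam q d a (d - i) * lam q d b i +
          phi' a b c q d (i + 1))) • sq v i +
        ((lam q d b i - (q * q) * lam q d b (i + 1)) * ((gg a b c q d (i + 1))⁻¹ *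
        (a⁻¹ - c / b * (q ^ d / (q ^ i) ^ 2 / q)))) • sq v (i + 1) -
        ((q * q) * (lam q d a (d - i) * phi' a b c q d i)) • sq v (i - 1) := by
      rw [hBi, hAi, map_add, map_add, map_smul, map_smul, map_smul, hAi, hBi, hBi1, mul_smul
        (lam q d b i - (q * q) * lam q d b (i + 1)), ← hgoal]
      module
    have hlhs : (q⁻¹ • (A * B) - q • (B * A) +
        ((q - q⁻¹) * (s a * s b + s c * t q d)) • (1 : Module.End K V)) (sq v i) =
        q⁻¹ • (A (B (sq v i)) - (q * q) • B (A (sq v i))) +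
        ((q - q⁻¹) * (s a * s b + s c * t q d)) • sq v i := by
      simp only [LinearMap.sub_apply, LinearMap.add_apply, LinearMap.smul_apply,
        Module.End.mul_apply, Module.End.one_apply]
      rw [smul_sub, smul_smul]
      congr 3
      field_simp
    rw [hlhs, hAB, ht]
    unfold s
    rw [phi'_eq ha hb hc hq d (i + 1), phi'_eq ha hb hc hq d i]
    rcases i with _ | i
    · simp only [LinearMap.sub_apply, LinearMap.add_apply, LinearMap.smul_apply,
        Module.End.mul_apply, mY_sq, mZ_sq, map_add, map_smul, zp hq, zp' hq, pp_zero, zero_mul,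
        zero_smul, add_zero, zero_add, smul_add, smul_smul, h1, Nat.add_sub_cancel, mul_zero, sub_zero]
      rw [lam_rev hq (Nat.zero_le d), lam_eq hq, lam_eq hq, pp_eq hq, gg_eq hq]
      simp only [pow_succ, pow_zero]
      generalize q ^ d = Q at *
      generalize (gg a b c q d (0 + 1))⁻¹ = N
      match_scalars <;> field_simp <;> ring
    · have hT' : q ^ i ≠ 0 := pow_ne_zero _ hq
      rw [Nat.add_sub_cancel, hA i (by omega)]
      simp only [LinearMap.sub_apply, LinearMap.add_apply, LinearMap.smul_apply,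
        Module.End.mul_apply, mY_sq, mZ_sq, map_add, map_smul, zp hq, zp' hq, smul_add, smul_smul,
        Nat.add_sub_cancel]
      simp only [mul_comm (pp q d (i + 1) * gg a b c q d (i + 1)) ((gg a b c q d (i + 1))⁻¹), h2, h1]
      rw [lam_rev hq hi, lam_rev hq (show i ≤ d by omega), lam_eq hq, lam_eq hq,
        pp_eq hq d (i + 1), pp_eq hq d (i + 1 + 1), gg_eq hq d (i + 1)]
      generalize hN : (gg a b c q d (i + 1 + 1))⁻¹ = N
      rw [gg_eq hq d (i + 1 + 1)]
      simp only [pow_succ]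
      generalize q ^ d = Q at *
      generalize q ^ i = T at *
      match_scalars <;> field_simp <;> ring
  unfold third
  rw [key, smul_smul]
  have : (q ^ 2 - q⁻¹ ^ 2)⁻¹ * ((q - q⁻¹) * (q + q⁻¹)) = 1 := by
    have e : q ^ 2 - q⁻¹ ^ 2 = (q - q⁻¹) * (q + q⁻¹) := by ring
    rw [e]
    exact inv_mul_cancel₀ (mul_ne_zero hqs hqa)
  rw [this, one_smul]

omit H in
/-- the values of the generators -/
noncomputable def act (a b c q : K) : Gen → Module.End K V
  | Gen.X => mX v q
  | Gen.Xinv => mXi v q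
  | Gen.Y => mY v a b c q
  | Gen.Z => mZ v a b c q

/-- the module structure -/
noncomputable def rho : Uq K q →ₐ[K] Module.End K V :=
  RingQuot.liftAlgHom K ⟨FreeAlgebra.lift K (act v a b c q), by
    intro x y h
    induction h with
    | inv₁ => simpa [act] using rel_inv₁ v H
    | inv₂ => simpa [act] using rel_inv₂ v H
    | XY => simpa [act] using rel_XY v H
    | YZ => simpa [act] using rel_YZ v H
    | ZX => simpa [act] using rel_ZX v H⟩

theorem rho_gen (g : Gen) : rho v H (gen K q g) = act v a b c q g := by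
  unfold rho gen
  rw [RingQuot.liftAlgHom_mkAlgHom_apply, FreeAlgebra.lift_ι_apply]

end act

theorem phi'_zero (a b c q : K) (d : ℕ) : phi' a b c q d 0 = 0 := by
  unfold phi' u
  simp

theorem phi'_end (a b c q : K) (d : ℕ) : phi' a b c q d (d + 1) = 0 := by
  unfold phi' u
  have e1 : (d : ℤ) - ((d + 1 : ℕ) : ℤ) + 1 = 0 := by push_cast; ring
  have e2 : ((d + 1 : ℕ) : ℤ) - d - 1 = 0 := by push_cast; ring
  rw [e1, e2, sub_self, mul_zero, mul_zero, zero_mul, zero_mul]

/-- **Theorem.** Let `K` be a field, `V` a vector space over `K`, `a, b, c, q` nonzero elements of `K` with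
`q ^ 4 ≠ 1`, and `A`, `B = A*` a Leonard pair on `V` (so `dim V = d + 1`) with the parameter array
`θ_i = λ_i(a)`, `θ*_i = λ_i(b)`, `φ_i`, `ϕ_i` of the problem.  Then `V` carries an irreducible module
structure `ρ` of `U_q(sl_2)` such that, `X`, `Y`, `Z` being the actions of the equitable generators,
`A = a X + a⁻¹ Y + (c / b) [X, Y] / (q - q⁻¹)`, `B = b Z + b⁻¹ X + (a / c) [Z, X] / (q - q⁻¹)` and
`A^ε = c Y + c⁻¹ Z + (b / a) [Y, Z] / (q - q⁻¹)`. -/
theorem result (K : Type*) [Field K] (V : Type*) [AddCommGroup V] [Module K V] (d : ℕ) (a b c q : K)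
    (ha : a ≠ 0) (hb : b ≠ 0) (hc : c ≠ 0) (hq : q ≠ 0) (hq4 : q ^ 4 ≠ 1) (A B : Module.End K V)
    (hAB : LeonardPair d A B)
    (hpa : HasParameterArray d A B (lam q d a) (lam q d b) (phi a b c q d) (phi' a b c q d)) :
    ∃ ρ : Uq K q →ₐ[K] Module.End K V, IsIrreducible ρ ∧
      A = a • ρ (gen K q Gen.X) + a⁻¹ • ρ (gen K q Gen.Y) +
        (c / b) • ((q - q⁻¹)⁻¹ • (ρ (gen K q Gen.X) * ρ (gen K q Gen.Y) -
          ρ (gen K q Gen.Y) * ρ (gen K q Gen.X))) ∧
      B = b • ρ (gen K q Gen.Z) + b⁻¹ • ρ (gen K q Gen.X) +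
        (a / c) • ((q - q⁻¹)⁻¹ • (ρ (gen K q Gen.Z) * ρ (gen K q Gen.X) -
          ρ (gen K q Gen.X) * ρ (gen K q Gen.Z))) ∧
      third a b c q d A B = c • ρ (gen K q Gen.Y) + c⁻¹ • ρ (gen K q Gen.Z) +
        (b / a) • ((q - q⁻¹)⁻¹ • (ρ (gen K q Gen.Y) * ρ (gen K q Gen.Z) -
          ρ (gen K q Gen.Z) * ρ (gen K q Gen.Y))) := by
  obtain ⟨-, v, hvA, hvB⟩ := hpa
  have hA : ∀ i, i ≤ d → A (sq v i) = lam q d a (d - i) • sq v i + sq v (i + 1) :=
    fun i _ => lower_apply v hvA i
  have hB : ∀ i, B (sq v i) = lam q d b i • sq v i + phi' a b c q d i • sq v (i - 1) :=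
    upper_apply v hvB (phi'_zero a b c q d) (phi'_end a b c q d)
  have hphi : ∀ i, 1 ≤ i → i ≤ d → phi' a b c q d i ≠ 0 := by
    intro i hi1 hi2 h0
    set W : Submodule K V := Submodule.span K {x | ∃ j, i ≤ j ∧ x = sq v j} with hW
    have hmem : ∀ j, i ≤ j → sq v j ∈ W := fun j hj => Submodule.subset_span ⟨j, hj, rfl⟩
    have hWA : ∀ w ∈ W, A w ∈ W := by
      intro w hw
      induction hw using Submodule.span_induction with
      | mem x hx =>
        obtain ⟨j, hj, rfl⟩ := hx
        rcases Nat.lt_or_ge d j with h | h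
        · rw [sq_zero v h, map_zero]; exact W.zero_mem
        · rw [hA j h]
          exact W.add_mem (W.smul_mem _ (hmem j hj)) (hmem _ (by omega))
      | zero => rw [map_zero]; exact W.zero_mem
      | add x y _ _ hx hy => rw [map_add]; exact W.add_mem hx hy
      | smul r x _ hx => rw [map_smul]; exact W.smul_mem _ hx
    have hWB : ∀ w ∈ W, B w ∈ W := by
      intro w hw
      induction hw using Submodule.span_induction with
      | mem x hx =>
        obtain ⟨j, hj, rfl⟩ := hx
        rw [hB j]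
        refine W.add_mem (W.smul_mem _ (hmem j hj)) ?_
        rcases Nat.lt_or_ge i j with h | h
        · exact W.smul_mem _ (hmem _ (by omega))
        · have : j = i := le_antisymm h hj
          rw [this, h0, zero_smul]
          exact W.zero_mem
      | zero => rw [map_zero]; exact W.zero_mem
      | add x y _ _ hx hy => rw [map_add]; exact W.add_mem hx hy
      | smul r x _ hx => rw [map_smul]; exact W.smul_mem _ hx
    rcases irreducible hAB W hWA hWB with h | h
    · have h1 := hmem i le_rfl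
      rw [h, Submodule.mem_bot] at h1
      have e : sq v i = v ⟨i, by omega⟩ := sq_fin v ⟨i, by omega⟩
      rw [e] at h1
      exact v.ne_zero _ h1
    · have h1 : ∀ w ∈ W, v.repr w 0 = 0 := by
        intro w hw
        induction hw using Submodule.span_induction with
        | mem x hx =>
          obtain ⟨j, hj, rfl⟩ := hx
          rcases Nat.lt_or_ge d j with h | h
          · rw [sq_zero v h, v.repr.map_zero]; rfl
          · have e : sq v j = v ⟨j, by omega⟩ := sq_fin v ⟨j, by omega⟩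
            rw [e, v.repr_self, Finsupp.single_apply, if_neg]
            intro h2
            have := congrArg Fin.val h2
            simp only [Fin.val_zero] at this
            omega
        | zero => rw [v.repr.map_zero]; rfl
        | add x y _ _ hx hy => rw [map_add, Finsupp.add_apply, hx, hy, add_zero]
        | smul r x _ hx => rw [map_smul, Finsupp.smul_apply, hx, smul_zero]
      have h2 : v 0 ∈ W := by rw [h]; exact Submodule.mem_top
      have h3 := h1 _ h2
      rw [v.repr_self, Finsupp.single_eq_same] at h3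
      exact one_ne_zero h3
  have H : Hyp a b c q d := ⟨ha, hb, hc, hq, hq4, fun i h1 h2 h3 => hphi i h1 h2 (by
    rw [phi'_eq ha hb hc hq, h3, mul_zero, zero_mul])⟩
  have eA := id_A v H hA
  have eB := id_B v H (fun i _ => hB i)
  have eE := id_E v H hA hB
  refine ⟨rho v H, ⟨⟨v 0, 0, v.ne_zero 0⟩, fun W hW => irreducible hAB W ?_ ?_⟩, ?_, ?_, ?_⟩
  · have hX := hW (gen K q Gen.X)
    have hY := hW (gen K q Gen.Y)
    rw [rho_gen] at hX hY
    intro w hw
    rw [eA]
    exact W.add_mem (W.add_mem (W.smul_mem _ (hX w hw)) (W.smul_mem _ (hY w hw)))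
      (W.smul_mem _ (W.smul_mem _ (W.sub_mem (hX _ (hY w hw)) (hY _ (hX w hw)))))
  · have hX := hW (gen K q Gen.X)
    have hZ := hW (gen K q Gen.Z)
    rw [rho_gen] at hX hZ
    intro w hw
    rw [eB]
    exact W.add_mem (W.add_mem (W.smul_mem _ (hZ w hw)) (W.smul_mem _ (hX w hw)))
      (W.smul_mem _ (W.smul_mem _ (W.sub_mem (hZ _ (hX w hw)) (hX _ (hZ w hw)))))
  · rw [rho_gen, rho_gen]; exact eA
  · rw [rho_gen, rho_gen]; exact eB
  · rw [rho_gen, rho_gen]; exact eE

end Pool.Agent.Results.MP_dc3d2a_al.EquitableAction
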